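import Mathlib

/-!
Membership of the block element (abstract form).  `A` is a commutative ring of characteristic two
acting on `M`; `P` is any function on lists of sites satisfying the two exchange laws.
-/

namespace D818Zm

variable {ι A M : Type*} [DecidableEq ι] [CommRing A] [CharP A 2] [AddCommGroup M] [Module A M]

/-- product of `f` over a finite set -/
def pr (f : ι → A) (S : Finset ι) : A := ∏ x ∈ S, f x

/-- elementary symmetric function of degree `|S| - 1` -/
def em (f : ι → A) (S : Finset ι) : A := ∑ c ∈ S, ∏ x ∈ S.erase c, f x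

/-- additive span of the words `P Q`, `Q` a list of `n` distinct sites of `V` -/
def sp (P : List ι → M) (V : Finset ι) (n : ℕ) : AddSubgroup M :=
  AddSubgroup.closure (P '' {Q | Q.Nodup ∧ Q.length = n ∧ ∀ x ∈ Q, x ∈ V})

section em

variable {f : ι → A}

omit [CharP A 2] in
theorem em_empty : em f ∅ = 0 := by simp [em]

omit [CharP A 2] in
theorem em_singleton (x : ι) : em f {x} = 1 := by simp [em]

omit [CharP A 2] in
theorem pr_union {B O : Finset ι} (h : Disjoint B O) : pr f (B ∪ O) = pr f B * pr f O := by
  simp only [pr]; exact Finset.prod_union h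

omit [CharP A 2] in
theorem em_union {B O : Finset ι} (h : Disjoint B O) :
    em f (B ∪ O) = em f B * pr f O + pr f B * em f O := by
  simp only [em, pr]
  rw [Finset.sum_union h, Finset.sum_mul, Finset.mul_sum]
  congr 1
  · refine Finset.sum_congr rfl fun c hc => ?_
    have hcO : c ∉ O := Finset.disjoint_left.1 h hc
    have : (B ∪ O).erase c = B.erase c ∪ O := by
      rw [Finset.erase_union_distrib, Finset.erase_eq_of_notMem hcO]
    rw [this, Finset.prod_union (Finset.disjoint_of_subset_left (Finset.erase_subset _ _) h)]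
  · refine Finset.sum_congr rfl fun c hc => ?_
    have hcB : c ∉ B := Finset.disjoint_right.1 h hc
    have : (B ∪ O).erase c = B ∪ O.erase c := by
      rw [Finset.erase_union_distrib, Finset.erase_eq_of_notMem hcB]
    rw [this, Finset.prod_union (Finset.disjoint_of_subset_right (Finset.erase_subset _ _) h)]

omit [CharP A 2] in
theorem em_insert {x : ι} {B : Finset ι} (h : x ∉ B) : em f (insert x B) = em f B * f x + pr f B := by
  have hd : Disjoint B {x} := by simpa using h
  have : insert x B = B ∪ {x} := by ext; simp
  rw [this, em_union hd, em_singleton]; simp [pr]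

omit [CharP A 2] in
theorem pr_insert {x : ι} {B : Finset ι} (h : x ∉ B) : pr f (insert x B) = f x * pr f B := by
  simp only [pr]; exact Finset.prod_insert h

omit [CharP A 2] in
theorem em_erase_add {x : ι} {S : Finset ι} (h : x ∈ S) :
    em f S = em f (S.erase x) * f x + pr f (S.erase x) := by
  conv_lhs => rw [← Finset.insert_erase h]
  exact em_insert (Finset.notMem_erase x S)

theorem two_eq_zero : (2 : A) = 0 := CharTwo.two_eq_zero

/-- the sum over ordered pairs of distinct elements of a symmetric function vanishes -/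
theorem sum_erase_em (O : Finset ι) : ∑ q ∈ O, em f (O.erase q) = 0 := by
  simp only [em]
  rw [Finset.sum_sigma']
  refine Finset.sum_involution (fun a _ => ⟨a.2, a.1⟩) ?_ ?_ ?_ ?_
  · rintro ⟨q, c⟩ h
    simp only [Finset.mem_sigma, Finset.mem_erase] at h
    dsimp only
    rw [Finset.erase_right_comm]
    exact CharTwo.add_self_eq_zero _
  · rintro ⟨q, c⟩ h _ h2
    simp only [Finset.mem_sigma, Finset.mem_erase] at h
    simp only [Sigma.mk.injEq] at h2
    exact h.2.1 h2.1
  · rintro ⟨q, c⟩ h
    simp only [Finset.mem_sigma, Finset.mem_erase] at h ⊢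
    exact ⟨h.2.2, fun h' => h.2.1 h'.symm, h.1⟩
  · rintro ⟨q, c⟩ _
    rfl

theorem em_mul_em {B O : Finset ι} (h : Disjoint B O) :
    em f B * em f O = ∑ q ∈ O, em f (B ∪ O.erase q) := by
  have : ∀ q ∈ O, em f (B ∪ O.erase q) = em f B * pr f (O.erase q) + pr f B * em f (O.erase q) :=
    fun q _ => em_union (Finset.disjoint_of_subset_right (Finset.erase_subset _ _) h)
  rw [Finset.sum_congr rfl this, Finset.sum_add_distrib, ← Finset.mul_sum, ← Finset.mul_sum,
    sum_erase_em, mul_zero, add_zero]
  rfl

end em

omit [CommRing A] [CharP A 2] in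
theorem sdiff_union_erase {U O : Finset ι} (h : O ⊆ U) {t : ι} (ht : t ∈ O) :
    (U \ O) ∪ O.erase t = U.erase t := by
  ext a
  simp only [Finset.mem_union, Finset.mem_sdiff, Finset.mem_erase]
  constructor
  · rintro (⟨h1, h2⟩ | ⟨h1, h2⟩)
    · exact ⟨fun h3 => h2 (h3 ▸ ht), h1⟩
    · exact ⟨h1, h h2⟩
  · rintro ⟨h1, h2⟩
    by_cases h3 : a ∈ O
    · exact Or.inr ⟨h1, h3⟩
    · exact Or.inl ⟨h2, h3⟩

section span

variable {P : List ι → M} {V : Finset ι}

omit [DecidableEq ι] in
theorem mem_sp {Q : List ι} {n : ℕ} (h1 : Q.Nodup) (h2 : Q.length = n) (h3 : ∀ x ∈ Q, x ∈ V) :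
    P Q ∈ sp P V n :=
  AddSubgroup.subset_closure ⟨Q, ⟨h1, h2, h3⟩, rfl⟩

omit [DecidableEq ι] in
theorem sp_mono {V' : Finset ι} (h : V ⊆ V') {n : ℕ} : sp P V n ≤ sp P V' n := by
  refine AddSubgroup.closure_mono (Set.image_mono ?_)
  rintro Q ⟨h1, h2, h3⟩
  exact ⟨h1, h2, fun x hx => h (h3 x hx)⟩

end span

section main

variable {f : ι → A} {P : List ι → M} {V : Finset ι}

/-- exchange law for lists of odd length -/
def LawT (f : ι → A) (P : List ι → M) (V : Finset ι) : Prop :=
  ∀ W : List ι, W.Nodup → Odd W.length → (∀ w ∈ W, w ∈ V) → ∀ x ∈ V, ∀ y ∈ V, x ∉ W → y ∉ W →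
    x ≠ y → (f x + f y) • P W =
      P (W ++ [x]) + P (W.reverse ++ [x]) + (P (W ++ [y]) + P (W.reverse ++ [y]))

/-- exchange law for lists of even length -/
def LawK (f : ι → A) (P : List ι → M) (V : Finset ι) : Prop :=
  ∀ W : List ι, W.Nodup → Even W.length → (∀ w ∈ W, w ∈ V) → ∀ x ∈ V, ∀ y ∈ V, ∀ z ∈ V,
    x ∉ W → y ∉ W → z ∉ W → x ≠ y → x ≠ z → y ≠ z →
    (f x * f y + f x * f z + f y * f z) • P W =
      (P (x :: y :: W) + P (W ++ [y, x])) + (P (x :: z :: W) + P (W ++ [z, x])) +
        (P (y :: z :: W) + P (W ++ [z, y]))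

omit [DecidableEq ι] [CharP A 2] in
theorem LawT.mono {V' : Finset ι} (h : LawT f P V) (hV : V' ⊆ V) : LawT f P V' :=
  fun W h1 h2 h3 x hx y hy => h W h1 h2 (fun w hw => hV (h3 w hw)) x (hV hx) y (hV hy)

omit [DecidableEq ι] [CharP A 2] in
theorem LawK.mono {V' : Finset ι} (h : LawK f P V) (hV : V' ⊆ V) : LawK f P V' :=
  fun W h1 h2 h3 x hx y hy z hz =>
    h W h1 h2 (fun w hw => hV (h3 w hw)) x (hV hx) y (hV hy) z (hV hz)

omit [CharP A 2] in
theorem em_triple {x y z : ι} (hxy : x ≠ y) (hxz : x ≠ z) (hyz : y ≠ z) :
    em f {x, y, z} = f x * f y + f x * f z + f y * f z := by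
  have h1 : x ∉ ({y, z} : Finset ι) := by simp [hxy, hxz]
  have h2 : y ∉ ({z} : Finset ι) := by simp [hyz]
  rw [em_insert h1, em_insert h2, em_singleton, pr_insert h2]
  simp only [pr, Finset.prod_singleton]
  ring

omit [CharP A 2] in
theorem em_pair {x y : ι} (hxy : x ≠ y) : em f {x, y} = f x + f y := by
  have h2 : x ∉ ({y} : Finset ι) := by simp [hxy]
  rw [em_insert h2, em_singleton]
  simp only [pr, Finset.prod_singleton]
  ring

/-- (A_s) -/
theorem A_mem (hK : LawK f P V) : ∀ (s : ℕ) (W : List ι) (S : Finset ι) (p : ι),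
    W.Nodup → Even W.length → (∀ w ∈ W, w ∈ V) → S ⊆ V → p ∈ V → p ∉ S → p ∉ W →
    (∀ w ∈ W, w ∉ S) → S.card = 2 * s + 1 → em f S • P W ∈ sp P V (W.length + 2 * s) := by
  intro s
  induction s with
  | zero =>
    intro W S p h1 h2 h3 hSV hp hpS hpW hWS hc
    obtain ⟨x, rfl⟩ := Finset.card_eq_one.1 (by simpa using hc)
    rw [em_singleton, one_smul]
    exact mem_sp h1 (by simp) h3
  | succ s ih =>
    intro W S p h1 h2 h3 hSV hp hpS hpW hWS hc
    set U := insert p S with hU
    have hUc : U.card = 2 * s + 4 := by rw [hU, Finset.card_insert_of_notMem hpS, hc]; ring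
    have hUV : U ⊆ V := by
      intro x hx
      rcases Finset.mem_insert.1 hx with rfl | hx
      · exact hp
      · exact hSV hx
    have hUW : ∀ x ∈ U, x ∉ W := by
      intro x hx hxW
      rcases Finset.mem_insert.1 hx with rfl | hx
      · exact hpW hxW
      · exact hWS x hxW hx
    -- triples
    have trip : ∀ x ∈ U, ∀ y ∈ U, ∀ z ∈ U, x ≠ y → x ≠ z → y ≠ z →
        em f (U.erase x) • P W + em f (U.erase y) • P W + em f (U.erase z) • P W ∈
          sp P V (W.length + 2 * (s + 1)) := by
      intro x hx y hy z hz hxy hxz hyz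
      set O : Finset ι := {x, y, z} with hO
      have hOU : O ⊆ U := by
        intro t ht
        simp only [hO, Finset.mem_insert, Finset.mem_singleton] at ht
        rcases ht with rfl | rfl | rfl <;> assumption
      have hOc : O.card = 3 := by
        rw [hO, Finset.card_insert_of_notMem (by simp [hxy, hxz]),
          Finset.card_insert_of_notMem (by simp [hyz]), Finset.card_singleton]
      set B := U \ O with hB
      have hd : Disjoint B O := Finset.sdiff_disjoint
      have hBc : B.card = 2 * s + 1 := by
        rw [hB, Finset.card_sdiff_of_subset hOU, hUc, hOc]; omega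
      have key : em f (U.erase x) • P W + em f (U.erase y) • P W + em f (U.erase z) • P W =
          em f B • ((f x * f y + f x * f z + f y * f z) • P W) := by
        rw [smul_smul, ← em_triple hxy hxz hyz, ← hO, em_mul_em hd, hO,
          Finset.sum_insert (by simp [hxy, hxz]), Finset.sum_insert (by simp [hyz]),
          Finset.sum_singleton, ← hO, add_smul, add_smul, ← add_assoc]
        have hh : ∀ t ∈ O, B ∪ O.erase t = U.erase t := by
          intro t ht
          exact sdiff_union_erase hOU ht
        rw [hh x (by simp [hO]), hh y (by simp [hO]), hh z (by simp [hO])]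
      rw [key, hK W h1 h2 h3 x (hUV hx) y (hUV hy) z (hUV hz) (hUW x hx) (hUW y hy) (hUW z hz)
        hxy hxz hyz]
      have hBV : B ⊆ V := fun t ht => hUV (Finset.sdiff_subset ht)
      have hBmem : ∀ t, t ∈ O → t ∉ B := fun t ht => Finset.disjoint_right.1 hd ht
      have hWB : ∀ w ∈ W, w ∉ B := fun w hw hwB => hUW w (Finset.sdiff_subset hwB) hw
      have two : ∀ a ∈ O, ∀ c ∈ O, ∀ d ∈ O, a ≠ c → a ≠ d → c ≠ d →
          em f B • (P (a :: c :: W) + P (W ++ [c, a])) ∈ sp P V (W.length + 2 * (s + 1)) := by
        intro a ha c hc' d hd' hac had hcd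
        rw [smul_add]
        have haW := hUW a (hOU ha)
        have hcW := hUW c (hOU hc')
        have hdW := hUW d (hOU hd')
        refine AddSubgroup.add_mem _ ?_ ?_
        · have := ih (a :: c :: W) B d (by simp [hac, haW, hcW, h1])
            (by simpa [Nat.even_add] using h2)
            (by
              intro w hw
              simp only [List.mem_cons] at hw
              rcases hw with rfl | rfl | hw
              · exact hUV (hOU ha)
              · exact hUV (hOU hc')
              · exact h3 w hw)
            hBV (hUV (hOU hd')) (hBmem d hd') (by simp [had.symm, hcd.symm, hdW])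
            (by
              intro w hw
              simp only [List.mem_cons] at hw
              rcases hw with rfl | rfl | hw
              · exact hBmem _ ha
              · exact hBmem _ hc'
              · exact hWB w hw)
            hBc
          have e : (a :: c :: W).length + 2 * s = W.length + 2 * (s + 1) := by
            simp only [List.length_cons]; ring
          rwa [e] at this
        · have := ih (W ++ [c, a]) B d
            (by
              rw [List.nodup_append]
              refine ⟨h1, by simp [hac.symm], ?_⟩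
              intro w hw w' hw' hww
              subst hww
              simp only [List.mem_cons, List.not_mem_nil, or_false] at hw'
              rcases hw' with rfl | rfl
              · exact hcW hw
              · exact haW hw)
            (by
              rw [List.length_append]
              simpa [Nat.even_add] using h2)
            (by
              intro w hw
              simp only [List.mem_append, List.mem_cons, List.not_mem_nil, or_false] at hw
              rcases hw with hw | rfl | rfl
              · exact h3 w hw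
              · exact hUV (hOU hc')
              · exact hUV (hOU ha))
            hBV (hUV (hOU hd')) (hBmem d hd') (by simp [had.symm, hcd.symm, hdW])
            (by
              intro w hw
              simp only [List.mem_append, List.mem_cons, List.not_mem_nil, or_false] at hw
              rcases hw with hw | rfl | rfl
              · exact hWB w hw
              · exact hBmem _ hc'
              · exact hBmem _ ha)
            hBc
          have e : (W ++ [c, a]).length + 2 * s = W.length + 2 * (s + 1) := by
            simp only [List.length_append, List.length_cons, List.length_nil]; ring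
          rwa [e] at this
      have hxO : x ∈ O := by simp [hO]
      have hyO : y ∈ O := by simp [hO]
      have hzO : z ∈ O := by simp [hO]
      rw [smul_add, smul_add]
      exact AddSubgroup.add_mem _ (AddSubgroup.add_mem _
        (two x hxO y hyO z hzO hxy hxz hyz)
        (two x hxO z hzO y hyO hxz hxy hyz.symm))
        (two y hyO z hzO x hxO hyz hxy.symm hxz.symm)
    -- pairs
    have pair : ∀ x ∈ U, ∀ y ∈ U, x ≠ y →
        em f (U.erase x) • P W + em f (U.erase y) • P W ∈ sp P V (W.length + 2 * (s + 1)) := by
      intro x hx y hy hxy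
      have hc2 : 1 < ((U.erase x).erase y).card := by
        rw [Finset.card_erase_of_mem (Finset.mem_erase.2 ⟨hxy.symm, hy⟩),
          Finset.card_erase_of_mem hx, hUc]; omega
      obtain ⟨u, hu, v, hv, huv⟩ := Finset.one_lt_card.1 hc2
      simp only [Finset.mem_erase] at hu hv
      have t1 := trip x hx u hu.2.2 v hv.2.2 (Ne.symm hu.2.1) (Ne.symm hv.2.1) huv
      have t2 := trip y hy u hu.2.2 v hv.2.2 (Ne.symm hu.1) (Ne.symm hv.1) huv
      have t3 := AddSubgroup.sub_mem _ t1 t2
      have e2 : ∀ m : M, m + m = 0 := fun m => by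
        rw [← two_smul A m, two_eq_zero, zero_smul]
      have e3 : em f (U.erase x) • P W + em f (U.erase y) • P W =
          (em f (U.erase x) • P W + em f (U.erase u) • P W + em f (U.erase v) • P W) -
            (em f (U.erase y) • P W + em f (U.erase u) • P W + em f (U.erase v) • P W) := by
        have e4 : em f (U.erase y) • P W = - (em f (U.erase y) • P W) :=
          eq_neg_of_add_eq_zero_left (e2 _)
        conv_lhs => rw [e4]
        abel
      rw [e3]; exact t3
    have hpU : p ∈ U := Finset.mem_insert_self _ _
    have hS : U.erase p = S := Finset.erase_insert hpS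
    have hc2 : 1 < S.card := by rw [hc]; omega
    obtain ⟨u, hu, v, hv, huv⟩ := Finset.one_lt_card.1 hc2
    have huU : u ∈ U := Finset.mem_insert_of_mem hu
    have hvU : v ∈ U := Finset.mem_insert_of_mem hv
    have hpu : p ≠ u := fun h => hpS (h ▸ hu)
    have hpv : p ≠ v := fun h => hpS (h ▸ hv)
    have t1 := trip p hpU u huU v hvU hpu hpv huv
    have t2 := pair u huU v hvU huv
    have t3 := AddSubgroup.sub_mem _ t1 t2
    rw [hS] at t3
    have e5 : em f S • P W = (em f S • P W + em f (U.erase u) • P W + em f (U.erase v) • P W) -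
      (em f (U.erase u) • P W + em f (U.erase v) • P W) := by abel
    rw [e5]; exact t3

/-- (B_s) -/
theorem B_mem (hK : LawK f P V) (hT : LawT f P V) (s : ℕ) (W : List ι) (T : Finset ι) (p : ι)
    (h1 : W.Nodup) (h2 : Odd W.length) (h3 : ∀ w ∈ W, w ∈ V) (hTV : T ⊆ V) (hp : p ∈ V)
    (hpT : p ∉ T) (hpW : p ∉ W) (hWT : ∀ w ∈ W, w ∉ T) (hc : T.card = 2 * s + 2) :
    em f T • P W ∈ sp P V (W.length + (2 * s + 1)) := by
  set U := insert p T with hU
  have hUc : U.card = 2 * s + 3 := by rw [hU, Finset.card_insert_of_notMem hpT, hc]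
  have hUV : U ⊆ V := by
    intro x hx
    rcases Finset.mem_insert.1 hx with rfl | hx
    · exact hp
    · exact hTV hx
  have hUW : ∀ x ∈ U, x ∉ W := by
    intro x hx hxW
    rcases Finset.mem_insert.1 hx with rfl | hx
    · exact hpW hxW
    · exact hWT x hxW hx
  have e2 : ∀ m : M, m + m = 0 := fun m => by
    rw [← two_smul A m, two_eq_zero, zero_smul]
  have pair : ∀ x ∈ U, ∀ y ∈ U, x ≠ y →
      em f (U.erase x) • P W + em f (U.erase y) • P W ∈ sp P V (W.length + (2 * s + 1)) := by
    intro x hx y hy hxy
    set O : Finset ι := {x, y} with hO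
    have hOU : O ⊆ U := by
      intro t ht
      simp only [hO, Finset.mem_insert, Finset.mem_singleton] at ht
      rcases ht with rfl | rfl <;> assumption
    have hOc : O.card = 2 := by
      rw [hO, Finset.card_insert_of_notMem (by simp [hxy]), Finset.card_singleton]
    set B := U \ O with hB
    have hd : Disjoint B O := Finset.sdiff_disjoint
    have hBc : B.card = 2 * s + 1 := by
      rw [hB, Finset.card_sdiff_of_subset hOU, hUc, hOc]; omega
    have key : em f (U.erase x) • P W + em f (U.erase y) • P W =
        em f B • ((f x + f y) • P W) := by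
      rw [smul_smul, ← em_pair hxy, ← hO, em_mul_em hd, hO,
        Finset.sum_insert (by simp [hxy]), Finset.sum_singleton, ← hO, add_smul]
      have hh : ∀ t ∈ O, B ∪ O.erase t = U.erase t := by
        intro t ht
        exact sdiff_union_erase hOU ht
      rw [hh x (by simp [hO]), hh y (by simp [hO])]
    rw [key, hT W h1 h2 h3 x (hUV hx) y (hUV hy) (hUW x hx) (hUW y hy) hxy]
    have hBV : B ⊆ V := fun t ht => hUV (Finset.sdiff_subset ht)
    have hBmem : ∀ t, t ∈ O → t ∉ B := fun t ht => Finset.disjoint_right.1 hd ht
    have hWB : ∀ w ∈ W, w ∉ B := fun w hw hwB => hUW w (Finset.sdiff_subset hwB) hw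
    have one : ∀ (L : List ι), L.Nodup → L.length = W.length → (∀ w ∈ L, w ∈ W) →
        ∀ a ∈ O, ∀ c ∈ O, a ≠ c →
        em f B • P (L ++ [a]) ∈ sp P V (W.length + (2 * s + 1)) := by
      intro L hL1 hL2 hL3 a ha c hc' hac
      have haL : a ∉ L := fun h => hUW a (hOU ha) (hL3 a h)
      have hcL : c ∉ L := fun h => hUW c (hOU hc') (hL3 c h)
      have := A_mem hK s (L ++ [a]) B c
        (by
          rw [List.nodup_append]
          refine ⟨hL1, by simp, ?_⟩
          intro w hw w' hw' hww
          subst hww
          simp only [List.mem_cons, List.not_mem_nil, or_false] at hw'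
          exact haL (hw' ▸ hw))
        (by
          rw [List.length_append, hL2]
          exact h2.add_odd odd_one)
        (by
          intro w hw
          simp only [List.mem_append, List.mem_cons, List.not_mem_nil, or_false] at hw
          rcases hw with hw | rfl
          · exact h3 w (hL3 w hw)
          · exact hUV (hOU ha))
        hBV (hUV (hOU hc')) (hBmem c hc') (by simp [hcL, hac.symm])
        (by
          intro w hw
          simp only [List.mem_append, List.mem_cons, List.not_mem_nil, or_false] at hw
          rcases hw with hw | rfl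
          · exact hWB w (hL3 w hw)
          · exact hBmem _ ha)
        hBc
      have e : (L ++ [a]).length + 2 * s = W.length + (2 * s + 1) := by
        simp only [List.length_append, List.length_cons, List.length_nil, hL2]; ring
      rwa [e] at this
    have hxO : x ∈ O := by simp [hO]
    have hyO : y ∈ O := by simp [hO]
    rw [smul_add, smul_add, smul_add]
    exact AddSubgroup.add_mem _
      (AddSubgroup.add_mem _ (one W h1 rfl (fun w hw => hw) x hxO y hyO hxy)
        (one W.reverse (List.nodup_reverse.2 h1) (List.length_reverse) (fun w hw => by simpa using hw)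
          x hxO y hyO hxy))
      (AddSubgroup.add_mem _ (one W h1 rfl (fun w hw => hw) y hyO x hxO hxy.symm)
        (one W.reverse (List.nodup_reverse.2 h1) (List.length_reverse) (fun w hw => by simpa using hw)
          y hyO x hxO hxy.symm))
  have hpU : p ∈ U := Finset.mem_insert_self _ _
  have hT' : U.erase p = T := Finset.erase_insert hpT
  -- sum over U
  have hsum : ∑ q ∈ U, (em f (U.erase q) • P W + em f (U.erase p) • P W) = em f T • P W := by
    rw [Finset.sum_add_distrib, ← Finset.sum_smul, sum_erase_em, zero_smul, zero_add,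
      Finset.sum_const, hUc, hT']
    have : 2 * s + 3 = 2 * (s + 1) + 1 := by ring
    rw [this, add_smul, one_smul, mul_comm, mul_smul, two_smul, e2, smul_zero, zero_add]
  rw [← hsum]
  refine AddSubgroup.sum_mem _ fun q hq => ?_
  by_cases hqp : q = p
  · rw [hqp, e2]; exact AddSubgroup.zero_mem _
  · exact pair q hq p hpU hqp

end main

end D818Zm

namespace D818Zm

variable {ι A M : Type*} [DecidableEq ι] [CommRing A] [CharP A 2] [AddCommGroup M] [Module A M]

section block

variable {f : ι → A} {P : List ι → M} {V : Finset ι} {E : ι → M →ₗ[A] M}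

/-- insertion of a dimer -/
def rho (f : ι → A) (E : ι → M →ₗ[A] M) (x y : ι) (w : M) : M :=
  (f x + f y) • (E x w + E y w) + (f x * f y) • w

/-- the exchange of two neighbours at the beginning of a list -/
def LawI (f : ι → A) (E : ι → M →ₗ[A] M) (P : List ι → M) (V : Finset ι) : Prop :=
  ∀ Q : List ι, Q.Nodup → Even Q.length → (∀ w ∈ Q, w ∈ V) → ∀ x ∈ V, ∀ y ∈ V, x ∉ Q → y ∉ Q →
    x ≠ y → P (x :: y :: Q) + P (y :: x :: Q) = rho f E x y (P Q)

omit [DecidableEq ι] [CharP A 2] in
theorem rho_add (x y : ι) (v w : M) : rho f E x y (v + w) = rho f E x y v + rho f E x y w := by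
  simp only [rho, map_add, smul_add]
  abel

omit [DecidableEq ι] [CharP A 2] in
theorem rho_zero (x y : ι) : rho f E x y (0 : M) = 0 := by simp [rho]

omit [DecidableEq ι] [CharP A 2] in
theorem rho_neg (x y : ι) (v : M) : rho f E x y (-v) = - rho f E x y v := by
  rw [eq_neg_iff_add_eq_zero, ← rho_add, neg_add_cancel, rho_zero]

omit [CharP A 2] in
theorem rho_mem (hI : LawI f E P V) {x y : ι} (hx : x ∈ V) (hy : y ∈ V) (hxy : x ≠ y) {n : ℕ}
    (hn : Even n) {m : M} (hm : m ∈ sp P ((V.erase x).erase y) n) :
    rho f E x y m ∈ sp P V (n + 2) := by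
  induction hm using AddSubgroup.closure_induction with
  | mem m hm =>
    obtain ⟨Q, ⟨h1, h2, h3⟩, rfl⟩ := hm
    have hQV : ∀ w ∈ Q, w ∈ V := fun w hw =>
      Finset.mem_of_mem_erase (Finset.mem_of_mem_erase (h3 w hw))
    have hxQ : x ∉ Q := fun h => by simpa using h3 x h
    have hyQ : y ∉ Q := fun h => by simpa using h3 y h
    rw [← hI Q h1 (h2 ▸ hn) hQV x hx y hy hxQ hyQ hxy]
    refine AddSubgroup.add_mem _ (mem_sp ?_ ?_ ?_) (mem_sp ?_ ?_ ?_)
    · simp [hxy, hxQ, hyQ, h1]
    · simp [h2]
    · intro w hw
      simp only [List.mem_cons] at hw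
      rcases hw with rfl | rfl | hw
      exacts [hx, hy, hQV w hw]
    · simp [hxy.symm, hxQ, hyQ, h1]
    · simp [h2]
    · intro w hw
      simp only [List.mem_cons] at hw
      rcases hw with rfl | rfl | hw
      exacts [hy, hx, hQV w hw]
  | zero => rw [rho_zero]; exact AddSubgroup.zero_mem _
  | add v w _ _ hv hw => rw [rho_add]; exact AddSubgroup.add_mem _ hv hw
  | neg v _ hv => rw [rho_neg]; exact AddSubgroup.neg_mem _ hv

/-- the algebraic identity behind the block formula -/
theorem block_identity (S : Finset ι) (hS : Odd S.card) {c : ι} (hc : c ∉ S) (a t q : M) :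
    pr f S • a + em f S • t + em f S • ∑ z ∈ S, E z q =
      ∑ z ∈ S, (em f (insert c (S.erase z)) • (f z • a + t + E z q) +
        rho f E z c (em f (S.erase z) • q)) := by
  have e2 : ∀ m : M, m + m = 0 := fun m => by
    rw [← two_smul A m, two_eq_zero, zero_smul]
  have h1 : ∀ z ∈ S, em f (insert c (S.erase z)) = em f (S.erase z) * f c + pr f (S.erase z) :=
    fun z _ => em_insert (fun h => hc (Finset.mem_of_mem_erase h))
  have hsum0 : ∑ z ∈ S, em f (S.erase z) = 0 := sum_erase_em S
  have hpr : ∀ z ∈ S, pr f (S.erase z) * f z = pr f S := by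
    intro z hz
    rw [mul_comm]
    simp only [pr]
    exact Finset.mul_prod_erase S f hz
  have hem : ∀ z ∈ S, em f (S.erase z) * f z = em f S + pr f (S.erase z) := by
    intro z hz
    have := em_erase_add (f := f) hz
    rw [this, add_assoc, CharTwo.add_self_eq_zero, add_zero]
  have hprs : ∑ z ∈ S, pr f (S.erase z) = em f S := rfl
  have hcard : ((S.card : ℕ) : A) = 1 := by
    obtain ⟨k, hk⟩ := hS
    rw [hk]; push_cast
    rw [two_eq_zero]; ring
  have hsum1 : ∑ z ∈ S, em f (S.erase z) * f z = 0 := by
    rw [Finset.sum_congr rfl hem, Finset.sum_add_distrib, hprs, Finset.sum_const, nsmul_eq_mul,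
      hcard, one_mul, CharTwo.add_self_eq_zero]
  -- expand each summand
  have hterm : ∀ z ∈ S, em f (insert c (S.erase z)) • (f z • a + t + E z q) +
      rho f E z c (em f (S.erase z) • q) =
      ((em f (S.erase z) * f z) * f c + pr f S) • a + (em f (S.erase z) * f c + pr f (S.erase z)) • t
        + em f S • E z q + ((em f (S.erase z) * f z) + (em f (S.erase z)) * f c) • E c q
        + (em f (S.erase z) * f z * f c) • q := by
    intro z hz
    rw [h1 z hz, rho]
    simp only [map_smul, smul_add, smul_smul]
    have c1 : (em f (S.erase z) * f c + pr f (S.erase z)) * f z =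
        (em f (S.erase z) * f z) * f c + pr f S := by
      rw [add_mul, hpr z hz]; ring
    have c2 : ∀ m : M, (em f (S.erase z) * f c + pr f (S.erase z)) • m +
        ((f z + f c) * em f (S.erase z)) • m = em f S • m := by
      intro m
      rw [← add_smul]
      congr 1
      have := hem z hz
      have h3 : (em f (S.erase z) * f c + pr f (S.erase z)) + (f z + f c) * em f (S.erase z) =
          (em f (S.erase z) * f z + pr f (S.erase z)) + (em f (S.erase z) * f c +
            em f (S.erase z) * f c) := by ring
      rw [h3, CharTwo.add_self_eq_zero, add_zero, this, add_assoc, CharTwo.add_self_eq_zero,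
        add_zero]
    rw [c1, ← c2 (E z q)]
    have c3 : (f z + f c) * em f (S.erase z) = em f (S.erase z) * f z + em f (S.erase z) * f c := by
      ring
    have c4 : f z * f c * em f (S.erase z) = em f (S.erase z) * f z * f c := by ring
    rw [c4, c3]
    abel
  rw [Finset.sum_congr rfl hterm]
  simp only [Finset.sum_add_distrib, ← Finset.sum_smul, ← Finset.smul_sum, ← Finset.sum_mul]
  rw [hsum1, hsum0, hprs]
  simp only [Finset.sum_const, nsmul_eq_mul, hcard, one_mul, zero_mul, zero_smul, zero_add,
    add_zero]

/-- the append formula -/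
def LawA (f : ι → A) (E : ι → M →ₗ[A] M) (a t : List ι → M) (P : List ι → M) (V : Finset ι) :
    Prop :=
  ∀ Y : List ι, Y.Nodup → Odd Y.length → (∀ w ∈ Y, w ∈ V) → ∀ x ∈ V, x ∉ Y →
    P (Y ++ [x]) = f x • a Y + t Y + E x (P Y)

/-- (f_s): the merged block lies in the span of the words -/
theorem G_mem (hK : LawK f P V) (hT : LawT f P V) (hI : LawI f E P V) {a t : List ι → M}
    (hA : LawA f E a t P V) (s : ℕ) (Y : List ι) (S : Finset ι) (c p : ι)
    (h1 : Y.Nodup) (h2 : Odd Y.length) (h3 : ∀ w ∈ Y, w ∈ V) (hSV : S ⊆ V) (hcV : c ∈ V)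
    (hpV : p ∈ V) (hcS : c ∉ S) (hpS : p ∉ S) (hcY : c ∉ Y) (hpY : p ∉ Y) (hcp : c ≠ p)
    (hYS : ∀ w ∈ Y, w ∉ S) (hc : S.card = 2 * s + 1) :
    pr f S • a Y + em f S • t Y + em f S • ∑ z ∈ S, E z (P Y) ∈
      sp P V (Y.length + 2 * s + 1) := by
  rw [block_identity S (by rw [hc]; exact ⟨s, rfl⟩) hcS]
  refine AddSubgroup.sum_mem _ fun z hz => AddSubgroup.add_mem _ ?_ ?_
  · have hzY : z ∉ Y := fun h => hYS z h hz
    have hzc : z ≠ c := fun h => hcS (h ▸ hz)
    have hzp : z ≠ p := fun h => hpS (h ▸ hz)
    rw [← hA Y h1 h2 h3 z (hSV hz) hzY]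
    have := A_mem hK s (Y ++ [z]) (insert c (S.erase z)) p
      (by
        rw [List.nodup_append]
        refine ⟨h1, by simp, ?_⟩
        intro w hw w' hw' hww
        subst hww
        simp only [List.mem_cons, List.not_mem_nil, or_false] at hw'
        exact hzY (hw' ▸ hw))
      (by rw [List.length_append]; exact h2.add_odd odd_one)
      (by
        intro w hw
        simp only [List.mem_append, List.mem_cons, List.not_mem_nil, or_false] at hw
        rcases hw with hw | rfl
        · exact h3 w hw
        · exact hSV hz)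
      (by
        intro w hw
        rcases Finset.mem_insert.1 hw with rfl | hw
        · exact hcV
        · exact hSV (Finset.mem_of_mem_erase hw))
      hpV (by simp [hcp.symm, hpS]) (by simp [hpY, hzp.symm])
      (by
        intro w hw
        simp only [List.mem_append, List.mem_cons, List.not_mem_nil, or_false] at hw
        rcases hw with hw | rfl
        · have hwc : w ≠ c := fun h => hcY (h ▸ hw)
          simp [hwc, hYS w hw]
        · simp [hzc])
      (by
        rw [Finset.card_insert_of_notMem (fun h => hcS (Finset.mem_of_mem_erase h)),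
          Finset.card_erase_of_mem hz, hc]; omega)
    have e : (Y ++ [z]).length + 2 * s = Y.length + 2 * s + 1 := by
      simp only [List.length_append, List.length_cons, List.length_nil]; ring
    rwa [e] at this
  · have hzY : z ∉ Y := fun h => hYS z h hz
    have hzc : z ≠ c := fun h => hcS (h ▸ hz)
    have hzp : z ≠ p := fun h => hpS (h ▸ hz)
    rcases Nat.eq_zero_or_pos s with rfl | hs
    · obtain ⟨x, rfl⟩ := Finset.card_eq_one.1 (by simpa using hc)
      have : z = x := by simpa using hz
      subst this
      have h0 : ({z} : Finset ι).erase z = ∅ := by simp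
      rw [h0, em_empty, zero_smul, rho_zero]
      exact AddSubgroup.zero_mem _
    · obtain ⟨r, rfl⟩ : ∃ r, s = r + 1 := ⟨s - 1, by omega⟩
      set V' := (V.erase z).erase c with hV'
      have hV'V : V' ⊆ V := (Finset.erase_subset _ _).trans (Finset.erase_subset _ _)
      have hmem : ∀ w, w ∈ V → w ≠ z → w ≠ c → w ∈ V' := fun w h h' h'' => by
        simp [hV', h, h', h'']
      have := B_mem (hK.mono hV'V) (hT.mono hV'V) r Y (S.erase z) p h1 h2
        (fun w hw => hmem w (h3 w hw) (fun h => hzY (h ▸ hw)) (fun h => hcY (h ▸ hw)))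
        (fun w hw => hmem w (hSV (Finset.mem_of_mem_erase hw)) (Finset.ne_of_mem_erase hw)
          (fun h => hcS (h ▸ Finset.mem_of_mem_erase hw)))
        (hmem p hpV hzp.symm hcp.symm) (fun h => hpS (Finset.mem_of_mem_erase h)) hpY
        (fun w hw h => hYS w hw (Finset.mem_of_mem_erase h))
        (by rw [Finset.card_erase_of_mem hz, hc]; omega)
      have h4 := rho_mem hI (hSV hz) hcV hzc (n := Y.length + (2 * r + 1))
        (h2.add_odd ⟨r, rfl⟩) this
      have e : Y.length + (2 * r + 1) + 2 = Y.length + 2 * (r + 1) + 1 := by ring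
      rwa [e] at h4

end block

end D818Zm
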